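import Pool.Agent.X297.CM.Dom

/-!
# Coniveau one for all varieties dominated by a power of a variety of CM type

Let `X` be a smooth projective complex variety of CM type (its Mumford-Tate group is commutative),
for instance a complex abelian variety with complex multiplication, simple or not, or a product of
such varieties, and let `f` be the number of types of elements which generate the cohomology algebra
of `X` with complex coefficients. One can always take `f ≤ b`, the total Betti number of `X`, and
`f = 2 g` for an abelian variety of dimension `g` of CM type.

If the rational sub-Hodge structures without holomorphic forms of the cohomology of the powers `X^m`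
with `m ≤ f` vanish on dense open subsets (the generalised Hodge conjecture in coniveau one), then
for all smooth projective varieties `Y` with a surjective generically finite morphism `X^n → Y`,
`n` arbitrary, and all `i` with `h^(i,0)(Y) = 0` all classes in `H^i(Y)` vanish on a dense
open subset of `Y`.
-/

open CategoryTheory AlgebraicGeometry

universe u v w

namespace Pool.Agent.Results.MP_1c689d_ag.BoundedPowersCM

open Pool.Agent.H914 Pool.Agent.H914.VarClass Pool.Agent.H914.VarClass.Obj
  Pool.Agent.H914.WeilCohomology Pool.Agent.X297.CM
open Pool.Agent.Y129 (pw)

theorem result {k : Type u} [Field k] {𝒱 : VarClass k} {ops : CycleOps 𝒱}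
    (W : WeilCohomology.{u, v} ops) {Γ : Type w} [Group Γ] (D : Decomposition W)
    (A : CoeffAction W Γ) (X : 𝒱.Obj) {b : ℕ} (hb : b = Module.finrank W.K (W.H X)) :
    (∀ F, GeneratedByTypes D A X F → (∀ m < F.card, GHC D A (pw X m) 1) →
      ConiveauOneDominated D X) ∧
    (IsCMType D A X → ∃ F, F.card ≤ b ∧ GeneratedByTypes D A X F) := by
  subst hb
  exact ⟨fun F hF h => coniveauOne_all hF h, fun hX => exists_types hX⟩

end Pool.Agent.Results.MP_1c689d_ag.BoundedPowersCM
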