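import Mathlib
import Pool.Agent.X311.Cn2

/-!
# The case of coniveau one of the generalized Hodge conjecture for the varieties dominated by products of
# abelian varieties of CM type and a surface

Let `E i` be finitely many CM fields, `Φ i` CM types of the `E i`, and let `A` be any product of powers
of the abelian varieties of CM type `(E i, Φ i)`. Let `Y` be a smooth projective variety with periods in
a subfield `K` of the complex numbers which satisfies the generalized Hodge conjecture in coniveau one (for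
example any curve or surface over `K`, or a point), and let `X` be any smooth projective variety dominated
by `A × Y`. We prove: if `h^(i, 0)(X) = 0` then all of `H^i(X, ℚ)` vanishes on a dense Zariski open subset
of `X`,

* in the degrees `i ≤ s` if every set of at most `s` complex embeddings of the `E i` without two
  conjugate elements is mapped into the CM types by an automorphism of `ℂ` over `K`; if the fields `E i`
  have degree at least `2 g` and are linearly disjoint from `K`, this is the case for all but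
  `2 ^ N (2 N + 1) ^ s (1 - 2 ^ (- s)) ^ (g / s ^ 2)` of the `2 ^ N` families of CM types, and so with
  `s = ⌊(1 - ε) log₂ g⌋` for almost all CM types of each field `E` of large degree `2 g`;
* in all degrees if all families of CM types of the `E i` are conjugate over `K`.

The classes are supported on divisors which are explained by `supportedOne`.
-/

set_option autoImplicit false

namespace Pool.Agent.Results.MP_1c689d_ag.CMTypes

open NumberField Pool.Agent.H204R3.CM Pool.Agent.TH131.GHC Pool.Agent.X311 Pool.Agent.X311.CmY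
  Pool.Agent.X311.Cn1

/-- Grothendieck's conjecture in coniveau one for all varieties dominated by the product of powers of
abelian varieties of CM type and a variety. -/
theorem result :
    (∀ {ι : Type} [Fintype ι] {E : ι → Type} [∀ i, Field (E i)] [∀ i, NumberField (E i)]
      [∀ i, IsCMField (E i)] (K : Subfield ℂ) (Φ : ∀ i, Set (E i →+* ℂ)) (s : ℕ),
      (∀ i, IsCMType (Φ i)) → SmallSetsOccurOver K Φ s → ConiveauOneForCM K Φ s) ∧
    (∀ {ι : Type} [Fintype ι] (E : ι → Type) [∀ i, Field (E i)] [∀ i, NumberField (E i)]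
      [∀ i, IsCMField (E i)] (K : Subfield ℂ) (g N s : ℕ), (∀ i, TransitiveOver K (E i)) →
      (∀ i, 2 * g ≤ Module.finrank ℚ (E i)) → ∑ i, Module.finrank ℚ (E i) = 2 * N →
      {Φ : ∀ i, Set (E i →+* ℂ) | ∀ i, IsCMType (Φ i)}.ncard = 2 ^ N ∧
      (({Φ : ∀ i, Set (E i →+* ℂ) | (∀ i, IsCMType (Φ i)) ∧
        ¬ ConiveauOneForCM K Φ s}.ncard : ℕ) : ℝ) ≤
        2 ^ N * ((2 * N + 1) ^ s * (1 - (1 / 2) ^ s) ^ ((g : ℝ) / (s : ℝ) ^ 2))) ∧
    (∀ ε : ℝ, 0 < ε → ε < 1 → ∃ g₀ : ℕ, ∀ g ≥ g₀, ∀ (E : Type) [Field E] [NumberField E]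
      [IsCMField E], Module.finrank ℚ E = 2 * g → ∀ K : Subfield ℂ, TransitiveOver K E →
      (({Φ : Set (E →+* ℂ) | IsCMType Φ ∧ ¬ ConiveauOneForCM K (fun _ : Unit => Φ)
        ⌊(1 - ε) * Real.logb 2 g⌋₊}.ncard : ℕ) : ℝ) ≤ ε * 2 ^ g) ∧
    (∀ {ι : Type} [Fintype ι] {E : ι → Type} [∀ i, Field (E i)] [∀ i, NumberField (E i)]
      [∀ i, IsCMField (E i)] (K : Subfield ℂ) (Φ : ∀ i, Set (E i →+* ℂ)),
      (∀ i, IsCMType (Φ i)) →
      (∀ Ψ : ∀ i, Set (E i →+* ℂ), (∀ i, IsCMType (Ψ i)) → ∃ σ : ℂ ≃+* ℂ, Fixes K σ ∧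
        ∀ i, ∀ φ ∈ Ψ i, (σ : ℂ →+* ℂ).comp φ ∈ Φ i) →
      ∀ s, ConiveauOneForCM K Φ s) := by
  refine ⟨fun K Φ s hΦ hs => coniveauOneForCM_of hΦ (transfers_of_small hΦ hs),
    fun E _ _ _ K g N s hK hg hN => ⟨Pool.Agent.TH170.GH.ncard_types E N hN, ?_⟩, ?_,
    fun K Φ hΦ h s => coniveauOneForCM_of hΦ (transfers_of_small hΦ (small_of_transitive hΦ h s))⟩
  · refine le_trans (Nat.cast_le.2 (Set.ncard_le_ncard ?_ (Set.toFinite _)))
      (ncard_not_transfers (K := K) E g N s hK hg hN)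
    rintro Φ ⟨h1, h2⟩
    exact ⟨h1, fun h3 => h2 (coniveauOneForCM_of h1 h3)⟩
  · intro ε hε hε1
    obtain ⟨g₀, hg₀⟩ := bound_one ε hε hε1
    refine ⟨g₀, fun g hg E _ _ _ hE K hK => ?_⟩
    have h1 := hg₀ g hg
    have h2 := ncard_not_transfers (K := K) (fun _ : Unit => E) g g
      ⌊(1 - ε) * Real.logb 2 g⌋₊ (fun _ => hK) (fun _ => hE.ge)
      (by rw [Finset.sum_const, Finset.card_univ, Fintype.card_unit, one_smul, hE])
    have h3 : ({Φ : Set (E →+* ℂ) | IsCMType Φ ∧ ¬ ConiveauOneForCM K (fun _ : Unit => Φ)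
        ⌊(1 - ε) * Real.logb 2 g⌋₊}.ncard) ≤
        ({Φ : Unit → Set (E →+* ℂ) | (∀ i, IsCMType (Φ i)) ∧ ¬ TransfersUpTo K Φ
          ⌊(1 - ε) * Real.logb 2 g⌋₊}.ncard) := by
      refine Set.ncard_le_ncard_of_injOn (fun Φ _ => Φ) ?_ ?_ (Set.toFinite _)
      · rintro Φ ⟨h4, h5⟩
        exact ⟨fun _ => h4, fun h6 => h5 (coniveauOneForCM_of (fun _ => h4) h6)⟩
      · intro Φ _ Ψ _ h
        exact congrFun h ()
    calc _ ≤ _ := Nat.cast_le.2 h3
      _ ≤ _ := h2
      _ ≤ 2 ^ g * ε := mul_le_mul_of_nonneg_left h1 (by positivity)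
      _ = ε * 2 ^ g := mul_comm _ _

end Pool.Agent.Results.MP_1c689d_ag.CMTypes
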