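import Mathlib
import Pool.Agent.X311.Cn1
import Pool.Agent.X311.GhcPeriods

/-!
# Coniveau one for all varieties dominated by products of abelian varieties with many algebraically
# independent periods and other varieties

Let `X` be a smooth projective variety and `π : A ^ n × Y → X` a surjective morphism, where `A` is an
abelian variety with period matrix `Z` (up to isogeny each abelian variety is principally polarized;
`A` may be simple or not) and `Y` is smooth and projective. For example `X` is a resolution of the
quotient of `A ^ n × Y` by a finite group (generalized Kummer varieties, Calabi-Yau quotients, symmetric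
powers of quotients of `A`, ...). Let `D` entries of `Z` be algebraically independent over a field `K` of
complex numbers.

1. If `D > g (g - 1) / 2`, `g = dim A`, then Grothendieck's conjecture in coniveau one holds for `X`, in
   all degrees `i`: if `h^(i, 0)(X) = 0` then all classes in `H^i(X, ℚ)` vanish on a dense Zariski open
   subset. The variety `Y` may be any surface, curve or point whose periods are in `K` or which is
   of CM type, and more generally any variety with one of these two properties for which each sub-Hodge
   structure of `H^e(Y)` without a part of type `(e, 0)` vanishes on a dense open subset (`GHCOne`; for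
   surfaces this is the theorem of Lefschetz on divisor classes and the hard Lefschetz theorem).
2. In general `A` is isogenous to a product `B × C` of abelian varieties with period matrices `Z₁`, `Z₂`,
   with `dim C ≤ ρ` for each `ρ` such that `D > g ^ 2 / 4` and `D > (ρ + 1) ^ 2 / 4 + (g - ρ - 1) (g - ρ) / 2`,
   and the same holds for all varieties `X` dominated by `B ^ n × Y` for all `Y` as above of CM type or
   whose periods are in the field generated by `K` and the entries of `Z₂`.

The cohomology classes of `A ^ n × Y` are described by the Künneth formula (`HAZ`), the surjective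
morphism by its pullback and by a left inverse of it which is given by an algebraic correspondence
(`IsDominated`). Of the classes which vanish on a dense open subset of `A ^ n × Y` only those are used
which are sums of products of a divisor class of `A ^ n` and any class, and of classes of `A ^ n` and
classes of `Y` which vanish on a dense open subset of `Y` (`supportedOne`).

The proof. The pullback of `H^i(X, ℚ)` is a sub-Hodge structure of `H^i(A ^ n × Y)` without a part of type
`(i, 0)`, so of level at most `i - 2`. Under the conditions on the periods the Hodge structures of `A`
and `Y` are independent, all simple factors of `A` (of `B`) have a Hodge group which is symplectic on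
each piece over the complex numbers, and the sub-Hodge structures of level at most `i - 2` are
contained in the span of the classes above (`MP_90e98f_ag.ManyPeriodsTimesVariety`).
-/

namespace Pool.Agent.Results.MP_1c689d_ag.ManyPeriods

open Matrix Pool.Agent.H204R3.CM Pool.Agent.W437.HC Pool.Agent.W437.HD Pool.Agent.TH131.GHC
  Pool.Agent.TH504.CB Pool.Agent.X311 Pool.Agent.X311.Cn1

/-- Grothendieck's conjecture in coniveau one holds for all smooth projective varieties `X` which
are dominated by `A ^ n × Y`, where `A` is the abelian variety with period matrix `Z`, if `Y` (with
cohomology `V`) satisfies the generalized Hodge conjecture in coniveau one. -/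
def ConiveauOneForDominated {g : ℕ} (Z : Matrix (Fin g) (Fin g) ℂ) {v : ℕ} (V : Coh v) : Prop :=
  ∀ N : Submodule ℚ (Fin v → ℚ), GHCOne V N → ∀ (n x : ℕ) (H : Coh x)
    (NX : Submodule ℚ (Fin x → ℚ)), IsEffective H →
      IsDominated (perPow Z n) V N H NX → ConiveauOne H NX

theorem of_transfers {g : ℕ} {Z : Matrix (Fin g) (Fin g) ℂ} (hZ : IsPeriodMatrix Z) {v : ℕ}
    {V : Coh v} (h : TransfersGHC Z V) : ConiveauOneForDominated Z V :=
  fun N hN n _ _ _ heff hd => coniveauOne_of_ghc hd heff (h (filt N) (ghcz_filt hN) n)
    (uniq_of_span (span_perPow Z hZ.2 n))

/-- Let `A` be a principally polarized abelian variety of dimension `g` such that `D` entries of its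
period matrix `Z` are algebraically independent over the field `K` of complex numbers. (1) If
`2 D > g (g - 1)` then Grothendieck's conjecture in coniveau one holds for all varieties dominated by
`A ^ n × Y`, for all `Y` of CM type or with periods in `K` which satisfy the generalized Hodge conjecture
in coniveau one. (2) In general `A` is isogenous to a product `B × C`, with `C` small if `D` is large,
such that this holds for the varieties dominated by `B ^ n × Y`, `Y` of CM type or with periods in the
field generated by `K` and the periods of `C`. -/
theorem result {g : ℕ} (Z : Matrix (Fin g) (Fin g) ℂ) (hZ : IsPeriodMatrix Z)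
    (K : Subfield ℂ) {D : ℕ} (p : Fin D → Fin g × Fin g)
    (hp : AlgebraicIndependent K fun s => Z (p s).1 (p s).2) :
    (g * (g - 1) < 2 * D → ∀ (v : ℕ) (V : Coh v), IsOfCMType V ∨ HasFiltrationOver K V →
      ConiveauOneForDominated Z V) ∧
    ∃ (b r : ℕ) (Z₁ : Matrix (Fin b) (Fin b) ℂ) (Z₂ : Matrix (Fin r) (Fin r) ℂ),
      IsPeriodMatrix Z₁ ∧ IsPeriodMatrix Z₂ ∧ IsIsogenousToProduct Z Z₁ Z₂ ∧ b + r = g ∧
      SmallQuotient g D r ∧
      ∀ (v : ℕ) (V : Coh v), IsOfCMType V ∨ HasFiltrationOver (periodField K Z₂) V →
        ConiveauOneForDominated Z₁ V := by
  obtain ⟨b, r, Z₁, Z₂, h1, h2, h3, h4, h5, h6, h7⟩ := ghc_periods Z hZ.1 hZ.2 K p hp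
  refine ⟨fun hD v V hV => of_transfers hZ (h7 ?_ v V hV), b, r, Z₁, Z₂, h1, h2, h3, h4, h5,
    fun v V hV => of_transfers h1 (h6 v V hV)⟩
  refine Nat.le_zero.1 (h5 0 ?_ ?_)
  · rcases g with _ | g
    · simpa using hD
    · rw [Nat.add_sub_cancel] at hD
      nlinarith
  · rcases g with _ | g
    · simp at hD ⊢
      omega
    · simp only [Nat.add_sub_cancel, Nat.sub_zero] at hD ⊢
      nlinarith

end Pool.Agent.Results.MP_1c689d_ag.ManyPeriods
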