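import Mathlib
import Pool.Agent.Y91.PS.Free
import Pool.Agent.TH131.GHC.Final
import Pool.Agent.X311.Cn1

/-!
# Coniveau one for all varieties dominated by products of very general members of families of abelian
# varieties with square zero operators of general rank and other varieties

Let `A i` be finitely many families of principally polarized abelian varieties, given by holomorphic
families `Z i` of period matrices over the connected open set `U` (for instance the universal covering
of a curve), and suppose that each of them is good (`IsGoodFamily`): it satisfies one of the
following conditions.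

1. The very general member is simple, more than half of its endomorphisms are symmetric for the
   Rosati involution (that is, its endomorphism algebra is of type I or II in the classification of
   Albert) and some rational rank `r` is different from `0`, `g / 2` and `g`, and `(g, r)` is not
   exceptional, or there is another rational rank. A rational rank is the rank of `γ - 1` for a
   monodromy operator `γ` with `(γ - 1) ^ 2 = 0`, that is the dimension of the toric part of the
   fibre of the Néron model at a semistable degeneration, or the rank of any rational square zero
   element of the Lie algebra generated by the Hodge operators. The pair is exceptional if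
   `2 g = e * C(4j+2, 2j+1)` and `r = e * C(4j, 2j)` for some `e` and some `j ≥ 1`, for instance
   `(10, 6)`, `(126, 70)`.
2. All endomorphisms are rational numbers, some rank `r` of the family is different from `0`, `g / 2`
   and `g`, and `(g, r)` is not exceptional with `e = 1` or there is another rank, and `2 g` does not
   divide the product of two of the ranks. Here a rank of the family is the rank of the
   Kodaira-Spencer map at one point, of the difference of two period matrices, of the image of a
   period matrix under a derivation of the complex numbers, or of any square zero element of the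
   Lie algebra generated by the Hodge operators.
3. The very general member is simple and some rank of the family is odd, or is two and the centre
   of the endomorphism algebra is totally real.

Let `K` be a countable field of complex numbers. Then for all `t` in `U` outside of a countable set, for
all products `A` of the members `A i t` (repetitions allowed) and ALL smooth projective varieties `Y`
(for example a point, a curve or a surface) which satisfy the generalized Hodge conjecture in coniveau
one (`GHCOne`; for `dim Y ≤ 2` this is the theorem of Lefschetz on divisor classes and the hard
Lefschetz theorem) and such that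

* `Y` is of CM type: the Mumford-Tate group of its cohomology is commutative; or
* the Hodge operator of the cohomology of `Y` has entries in `K`, and the families `A i` are not
  constant (each variety `Y` has this property for a suitable field `K`)

Grothendieck's conjecture in coniveau one holds for every smooth projective variety `X` with a surjective
morphism `π : A × Y → X`, in all degrees `i`: if `h^(i, 0)(X) = 0` then all classes in `H^i(X, ℚ)` vanish
on a dense Zariski open subset. For example `X` is a resolution of the quotient of `A × Y` by a finite
group.

The cohomology classes of `A × Y` are described by the Künneth formula (`HAZ`), the surjective morphism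
by its pullback and by a left inverse of it which is given by an algebraic correspondence
(`IsDominated`). Of the classes which vanish on a dense open subset of `A × Y` only those are used which
are sums of products of a divisor class of `A` and any class, and of classes of `A` and classes of `Y`
which vanish on a dense open subset of `Y` (`supportedOne`).

The proof. The pullback of `H^i(X, ℚ)` is a sub-Hodge structure of `H^i(A × Y)` without a part of type
`(i, 0)`, so of level at most `i - 2`, and such sub-Hodge structures are contained in the span of
the classes above by `MP_90e98f_ag.MonodromyFamiliesTimesVariety`.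
-/

namespace Pool.Agent.Results.MP_1c689d_ag.MonodromyFamilies

open Matrix Pool.Agent.H204R3.CM Pool.Agent.H194R3.CM Pool.Agent.W437.HC Pool.Agent.W437.HD
  Pool.Agent.W437.HP Pool.Agent.TH131.GHC Pool.Agent.Y91.Sharp Pool.Agent.Y91.PS Pool.Agent.X311.Cn1

/-- Let `Z i` be finitely many good families over the connected open set `U` and `K` a
countable field of complex numbers. For all `t` in `U` outside of a countable set, for all
varieties `Y` with cohomology `V` of CM type, or whose Hodge operator has entries in `K` if the
families are not constant, with a space `N` for which `Y` satisfies the generalized Hodge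
conjecture in coniveau one, and for all products `A` of abelian varieties
`ℂ ^ g / (ℤ ^ g + Z(t) ℤ ^ g)`, `Z` one of the `Z i` (repetitions allowed): Grothendieck's conjecture in
coniveau one holds for all varieties `X` (with cohomology `H`) which are dominated by `A × Y`. -/
theorem result {ι : Type} [Fintype ι] {U : Set ℂ} (hU : IsOpen U) (hc : IsPreconnected U)
    {g : ι → ℕ} (Z : ∀ i, ℂ → Matrix (Fin (g i)) (Fin (g i)) ℂ)
    (h : ∀ i, IsGoodFamily U (Z i)) (K : Subfield ℂ) (hK : (K : Set ℂ).Countable) :
    ∃ E : Set ℂ, E.Countable ∧ ∀ t ∈ U, t ∉ E → ∀ {v : ℕ} (V : Coh v),
      (IsCMType V ∨ ((∀ i, ∃ s ∈ U, ∃ s' ∈ U, Z i s ≠ Z i s') ∧ HasPeriodsIn K V)) →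
        ∀ (N : Submodule ℚ (Fin v → ℚ)), GHCOne V N → ∀ {m : ℕ} (c : Fin m → ι) {x : ℕ}
          (H : Coh x) (NX : Submodule ℚ (Fin x → ℚ)), IsEffective H →
            IsDominated (perFam (fun i => Z i t) c) V N H NX → ConiveauOne H NX := by
  classical
  choose E₁ hE₁ hE₁t using fun i => exists_simple hU hc (h i)
  have key : ∃ E₂ : Set ℂ, E₂.Countable ∧ ∀ t ∈ U, t ∉ E₂ → ∀ {v : ℕ} (V : Coh v),
      ((∀ i, ∃ s ∈ U, ∃ s' ∈ U, Z i s ≠ Z i s') ∧ HasPeriodsIn K V) → ∀ {m : ℕ} (c : Fin m → ι),
        IsFree (fun j => Z (c j) t) V := by
    by_cases hnc : ∀ i, ∃ s ∈ U, ∃ s' ∈ U, Z i s ≠ Z i s'
    · obtain ⟨E₂, h1, h2⟩ := exists_free hU hc Z h hnc K hK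
      exact ⟨E₂, h1, fun t ht htE v V hV m c => h2 t ht htE V (Or.inr hV.2) c⟩
    · exact ⟨∅, Set.countable_empty, fun t ht htE v V hV m c => absurd hV.1 hnc⟩
  obtain ⟨E₂, hE₂, hE₂t⟩ := key
  refine ⟨(⋃ i, E₁ i) ∪ E₂, (Set.countable_iUnion hE₁).union hE₂,
    fun t ht htE v V hV N hN m c x H NX heff hdom => ?_⟩
  rw [Set.mem_union, not_or, Set.mem_iUnion, not_exists] at htE
  have hZ : ∀ j, (Z (c j) t).transpose = Z (c j) t := fun j => ((h (c j)).2.1 t ht).1
  have hpos : ∀ j, ((Z (c j) t).map Complex.im).PosDef := fun j => ((h (c j)).2.1 t ht).2
  have hp : ∀ j, Pool.Agent.W437.HR.HasPcs (DZ (Z (c j) t)) :=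
    fun j => (hE₁t (c j) t ht (htE.1 (c j))).1
  have hind : Indep (DZ (bigD ℂ fun j => Z (c j) t)) V.z := by
    rcases hV with hV | hV
    · exact (polOf (bigD_symm hZ) (imM_bigD_posDef (fun j => Z (c j) t) hpos)).indep_cm
        (simp_prod (fun j => Z (c j) t) hZ hpos hp) hV
    · exact (hE₂t t ht htE.2 V hV c).ind
  have h1 : GHCProduct (perFam (fun i => Z i t) c) V (filt N) :=
    ghc_rel (fun j => Z (c j) t) hZ hpos hp (t := fun j => j) V hind (ghcz_filt hN)
  exact coniveauOne_of_ghc hdom heff h1
    (uniq_of_span (span_perFam (fun j => Z (c j) t) hpos fun j => j))

end Pool.Agent.Results.MP_1c689d_ag.MonodromyFamilies
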